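import Pool.Agent.Run7.h851.T.Iface
import Pool.Agent.H336R2.HD.H6pre

/-! Piece T-H6: non-vanishing of the determinant at `n = p`, from the statements A2, H3, H4, H5 (port of
`Pool/Agent/Dim7/H6.lean`, three kinds of columns, blocks of size `144`). -/

open Polynomial Pool.Agent.H337R2
open Pool.Agent.Run7.h851.T

namespace Pool.Agent.Run7.h697.T

noncomputable section

namespace H6

/-! ### auxiliary lemmas -/

/-- determinant after scaling of rows and columns -/
lemma H6_det_scale {α : Type} [Fintype α] [DecidableEq α] (c d : α → ℚ) (M : Matrix α α ℚ) :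
    (Matrix.of fun a b => c a * d b * M a b).det = (∏ a, c a) * ((∏ a, d a) * M.det) := by
  have h1 : (Matrix.of fun a b => c a * d b * M a b) =
      Matrix.of fun a b => c a * (Matrix.of fun a b => d b * M a b) a b := by
    ext a b
    simp only [Matrix.of_apply]
    ring
  rw [h1, Matrix.det_mul_column, Matrix.det_mul_row]

lemma H6_XN_natDegree (n r : ℕ) : (XN n r).natDegree ≤ 1 := by
  unfold XN
  rw [← C_pow]
  exact (natDegree_X_sub_C _).le

/-- the test polynomials -/
def H6_P (p r c l : ℕ) : ℚ[X] := XN p r ^ l * OT p r c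

lemma H6_P_natDegree (p r c l : ℕ) (hr1 : 1 ≤ r) (hr2 : 2 * r < p) (hl : l < c)
    (hodd : p % 2 = 1) : (H6_P p r c l).natDegree < c * ((p - 1) / 2) := by
  have h1 : (XN p r ^ l).natDegree ≤ l := by
    refine natDegree_pow_le.trans ?_
    have := H6_XN_natDegree p r
    nlinarith
  have h2 : (OT p r c).natDegree ≤ c * ((p - 1) / 2 - 1) := by
    unfold OT
    refine (natDegree_prod_le _ _).trans ?_
    have h3 : ∀ r' ∈ (Finset.Icc 1 ((p - 1) / 2)).erase r, (XN p r' ^ c).natDegree ≤ c := by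
      intro r' _
      refine natDegree_pow_le.trans ?_
      have := H6_XN_natDegree p r'
      nlinarith
    refine (Finset.sum_le_sum h3).trans ?_
    rw [Finset.sum_const, Finset.card_erase_of_mem, Nat.card_Icc, smul_eq_mul]
    · rw [mul_comm]
      exact Nat.mul_le_mul_left _ (by omega)
    · rw [Finset.mem_Icc]
      omega
  unfold H6_P
  refine (natDegree_mul_le).trans_lt ?_
  obtain ⟨h, hh⟩ : ∃ h, (p - 1) / 2 = h + 1 := ⟨(p - 1) / 2 - 1, by omega⟩
  rw [hh] at h2 ⊢
  rw [Nat.add_sub_cancel] at h2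
  rw [mul_add, mul_one]
  omega

lemma H6_P_mul (p r l l' : ℕ) : H6_P p r 144 l * H6_P p r 48 l' =
    XN p r ^ (l + l') * OT p r 192 := by
  unfold H6_P
  rw [pow_add]
  have h : OT p r 192 = OT p r 144 * OT p r 48 := by
    unfold OT
    rw [← Finset.prod_mul_distrib]
    refine Finset.prod_congr rfl fun r' _ => ?_
    rw [← pow_add]
  rw [h]
  ring

/-- the bijection between rows and columns -/
def H6_e (h : ℕ) : Fin 144 × Fin h ≃ (Fin 48 × Fin h) ⊕ ((Fin 48 × Fin h) ⊕ (Fin 48 × Fin h)) where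
  toFun a := if hl : a.1.1 < 48 then Sum.inl (⟨a.1.1, hl⟩, a.2)
    else if hl2 : a.1.1 < 96 then Sum.inr (Sum.inl (⟨a.1.1 - 48, by omega⟩, a.2))
    else Sum.inr (Sum.inr (⟨a.1.1 - 96, by have := a.1.2; omega⟩, a.2))
  invFun := Sum.elim (fun c => (⟨c.1.1, by have := c.1.2; omega⟩, c.2))
    (Sum.elim (fun c => (⟨c.1.1 + 48, by have := c.1.2; omega⟩, c.2))
      (fun c => (⟨c.1.1 + 96, by have := c.1.2; omega⟩, c.2)))
  left_inv a := by
    obtain ⟨⟨l, hl⟩, r⟩ := a
    by_cases h1 : l < 48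
    · simp [h1]
    · by_cases h2 : l < 96
      · simp only [h1, h2, dite_false, dite_true, Sum.elim_inr, Sum.elim_inl, Prod.mk.injEq, Fin.mk.injEq,
          and_true]
        omega
      · simp only [h1, h2, dite_false, Sum.elim_inr, Prod.mk.injEq, Fin.mk.injEq, and_true]
        omega
  right_inv c := by
    rcases c with ⟨⟨l, hl⟩, r⟩ | ⟨⟨l, hl⟩, r⟩ | ⟨⟨l, hl⟩, r⟩
    · simp [hl]
    · have h1 : ¬ l + 48 < 48 := by omega
      have h2 : l + 48 < 96 := by omega
      simp [h2]
    · have h1 : ¬ l + 96 < 48 := by omega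
      have h2 : ¬ l + 96 < 96 := by omega
      simp [h1]

lemma H6_e_A (h : ℕ) (a : Fin 144 × Fin h) (ha : a.1.1 < 48) :
    H6_e h a = Sum.inl (⟨a.1.1, ha⟩, a.2) := by
  unfold H6_e
  simp [ha]

lemma H6_e_B (h : ℕ) (a : Fin 144 × Fin h) (ha : ¬ a.1.1 < 48) (ha2 : a.1.1 < 96) :
    H6_e h a = Sum.inr (Sum.inl (⟨a.1.1 - 48, by omega⟩, a.2)) := by
  unfold H6_e
  simp [ha, ha2]

lemma H6_e_C (h : ℕ) (a : Fin 144 × Fin h) (ha : ¬ a.1.1 < 48) (ha2 : ¬ a.1.1 < 96) :
    H6_e h a = Sum.inr (Sum.inr (⟨a.1.1 - 96, by have := a.1.2; omega⟩, a.2)) := by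
  unfold H6_e
  simp [ha, ha2]

lemma H6_norm_prod (p : ℕ) [Fact p.Prime] {ι : Type} [Fintype ι] (f : ι → ℚ)
    (hf : ∀ i, padicNorm p (f i) = 1) : padicNorm p (∏ i, f i) = 1 := by
  have h4 : padicNorm p (∏ i, f i) = ∏ i, padicNorm p (f i) := by
    exact map_prod (⟨⟨fun x => padicNorm p x, padicNorm.one⟩, fun x y => padicNorm.mul x y⟩ :
      ℚ →* ℚ) f Finset.univ
  rw [h4]
  exact Finset.prod_eq_one fun i _ => hf i

lemma H6_norm_pow (p : ℕ) [Fact p.Prime] (x : ℚ) (hx : padicNorm p x = 1) (k : ℕ) :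
    padicNorm p (x ^ k) = 1 := by
  induction k with
  | zero => simp
  | succ k ih => rw [pow_succ, padicNorm.mul, ih, hx, one_mul]

lemma H6_fin_int (F : ℕ → ℚ) (N : ℕ) :
    ∃ p2 : ℕ, ∀ e ∈ Finset.range N, ∀ p : ℕ, p2 ≤ p → p.Prime → padicNorm p (F e) ≤ 1 := by
  choose f hf using fun e : ℕ => Pool.Agent.H336R2.HD.H6_int (F e)
  refine ⟨(Finset.range N).sup f, fun e he p hp hpp => hf e p ?_ hpp⟩
  exact (Finset.le_sup (f := f) he).trans hp

lemma H6_UInt (p q : ℕ) (hpp : p.Prime) (hqp : q < p) (u : ℕ → ℚ) (hu : UInt q u) (i : ℕ) :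
    padicNorm p (u i) ≤ 1 := by
  have : Fact p.Prime := ⟨hpp⟩
  have hq0 : 0 < q := hu.1
  obtain ⟨z, hz⟩ := hu.2 i
  have h1 : padicNorm p ((q : ℕ) : ℚ) = 1 := by
    rw [padicNorm.nat_eq_one_iff]
    intro h
    have := Nat.le_of_dvd hq0 h
    omega
  have h2 : padicNorm p ((q : ℚ) * u i) ≤ 1 := by
    rw [hz]
    exact padicNorm.of_int z
  rw [padicNorm.mul] at h2
  rw [h1, one_mul] at h2
  exact h2

end H6

set_option maxRecDepth 10000 in
open H6 in
/-- the determinant does not vanish at `n = p` for all large primes `p` -/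
theorem t_H6_nonvanish_of (ha2 : St_A2_ne) (h3 : St_H3_diag) (h4 : St_H4_offdiag) (h5 : St_H5_local) :
    St_H6_nonvanish := by
  intro α β γ q i0 hα hβ hγ hβ0 hβ1 hi0 hγ0 hγ1
  -- bounds on the constants
  obtain ⟨p1, hp1⟩ := Pool.Agent.H336R2.HD.H6_unit _ (h5 i0 hi0)
  obtain ⟨p2, hp2⟩ := H6_fin_int Fm 191
  obtain ⟨p3, hp3⟩ := H6_fin_int (Bm 3) 191
  obtain ⟨p5, hp5⟩ := H6_fin_int (Bm i0) 191
  obtain ⟨p4, hp4⟩ := Pool.Agent.H336R2.HD.H6_unit _ hβ1
  obtain ⟨p6, hp6⟩ := Pool.Agent.H336R2.HD.H6_unit _ hγ1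
  refine ⟨p1 + p2 + p3 + p4 + p5 + p6 + q + 400, fun p hp hpp => ?_⟩
  have : Fact p.Prime := ⟨hpp⟩
  have hp200 : 400 ≤ p := by omega
  have hodd : p % 2 = 1 := by
    rcases hpp.eq_two_or_odd with h | h
    · omega
    · exact h
  have hαp : ∀ i, padicNorm p (α i) ≤ 1 := H6_UInt p q hpp (by omega) α hα
  have hβp : ∀ i, padicNorm p (β i) ≤ 1 := H6_UInt p q hpp (by omega) β hβ
  have hγp : ∀ i, padicNorm p (γ i) ≤ 1 := H6_UInt p q hpp (by omega) γ hγ
  have hi0odd : Odd i0 := by
    rcases hi0 with h | h <;> rw [h] <;> decide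
  have hi063 : i0 ≤ 63 := by omega
  set h := (p - 1) / 2 with hh
  have hph : p = 2 * h + 1 := by omega
  have hp0 : (p : ℚ) ≠ 0 := by exact_mod_cast hpp.ne_zero
  -- choose the units
  have hw : ∀ r : Fin h, ∃ w : ℚ, padicNorm p w = 1 ∧ ∀ e : ℕ, e ≤ 190 →
      padicNorm p ((p : ℚ) ^ (-(e : ℤ)) * AL p α (XN p (r.1 + 1) ^ e * OT p (r.1 + 1) 192) -
        w * (-2 * ((r.1 + 1 : ℕ) : ℚ)) ^ e * Fm e) ≤ (p : ℚ)⁻¹ ∧
      padicNorm p ((p : ℚ) ^ (-(e : ℤ) - 3) * BL p β (XN p (r.1 + 1) ^ e * OT p (r.1 + 1) 192) -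
        w * (-2 * ((r.1 + 1 : ℕ) : ℚ)) ^ e * (β 3 * Bm 3 e)) ≤ (p : ℚ)⁻¹ ∧
      padicNorm p ((p : ℚ) ^ (-(e : ℤ) - i0) * BL p γ (XN p (r.1 + 1) ^ e * OT p (r.1 + 1) 192) -
        w * (-2 * ((r.1 + 1 : ℕ) : ℚ)) ^ e * (γ i0 * Bm i0 e)) ≤ (p : ℚ)⁻¹ := by
    intro r
    have hr := r.2
    obtain ⟨w, hw, hA, hB⟩ := h3 hp200 (r.1 + 1) (by omega) (by omega)
    exact ⟨w, hw, fun e he => ⟨hA α hαp e he,
      by exact_mod_cast hB β 3 hβp (by decide) (by norm_num) hβ0 e he,
      hB γ i0 hγp hi0odd hi063 hγ0 e he⟩⟩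
  choose w hw1 hw2 using hw
  have hunit : ∀ r : Fin h, padicNorm p (-2 * ((r.1 + 1 : ℕ) : ℚ)) = 1 := by
    intro r
    have hr := r.2
    have h3 : (-2 * ((r.1 + 1 : ℕ) : ℚ)) = ((-(2 * (r.1 + 1) : ℕ) : ℤ) : ℚ) := by
      push_cast
      ring
    rw [h3, padicNorm.int_eq_one_iff]
    intro h4
    rw [Int.dvd_neg, Int.natCast_dvd_natCast] at h4
    have := Nat.le_of_dvd (by omega) h4
    omega
  -- the Gram matrix
  set Q : Fin 144 × Fin h → ℚ[X] := fun a => H6_P p (a.2.1 + 1) 144 a.1.1 with hQ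
  set P : Fin 48 × Fin h → ℚ[X] := fun c => H6_P p (c.2.1 + 1) 48 c.1.1 with hP
  set G : Matrix (Fin 144 × Fin h) (Fin 144 × Fin h) ℚ :=
    Matrix.of fun r s => Sum.elim (fun c => AL p α (Q r * P c))
      (Sum.elim (fun c => BL p β (Q r * P c)) (fun c => BL p γ (Q r * P c))) (H6_e h s) with hG
  have key : G.det ≠ 0 := by
    set c : Fin 144 × Fin h → ℚ := fun a => (p : ℚ) ^ (-(a.1.1 : ℤ)) with hc
    set d : Fin 144 × Fin h → ℚ := fun a =>
      if a.1.1 < 48 then (p : ℚ) ^ (-(a.1.1 : ℤ)) else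
      if a.1.1 < 96 then (p : ℚ) ^ (-((a.1.1 - 48 : ℕ) : ℤ) - 3) else
        (p : ℚ) ^ (-((a.1.1 - 96 : ℕ) : ℤ) - i0) with hd
    set M : Matrix (Fin 144 × Fin h) (Fin 144 × Fin h) ℚ :=
      Matrix.of fun a b => c a * d b * G a b with hM
    set Bl : Fin h → Matrix (Fin 144) (Fin 144) ℚ := fun r =>
      Matrix.of fun l l' => if l'.1 < 48 then
          w r * (-2 * ((r.1 + 1 : ℕ) : ℚ)) ^ (l.1 + l'.1) * Fm (l.1 + l'.1)
        else if l'.1 < 96 then
          w r * (-2 * ((r.1 + 1 : ℕ) : ℚ)) ^ (l.1 + (l'.1 - 48)) * (β 3 * Bm 3 (l.1 + (l'.1 - 48)))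
        else w r * (-2 * ((r.1 + 1 : ℕ) : ℚ)) ^ (l.1 + (l'.1 - 96)) * (γ i0 * Bm i0 (l.1 + (l'.1 - 96)))
      with hBl
    have hM0 : M.det ≠ 0 := by
      apply Pool.Agent.H336R2.HD.A6_det_congr p M (Matrix.blockDiagonal Bl)
      · intro a b
        rw [Matrix.blockDiagonal_apply]
        split_ifs with hab
        · simp only [hBl, Matrix.of_apply]
          have ha := a.1.2
          have hb := b.1.2
          split_ifs with hl hl2
          · have h1 : padicNorm p (Fm (a.1.1 + b.1.1)) ≤ 1 :=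
              hp2 _ (Finset.mem_range.2 (by omega)) p (by omega) hpp
            rw [padicNorm.mul, padicNorm.mul, hw1, one_mul, H6_norm_pow p _ (hunit a.2), one_mul]
            exact h1
          · have h1 : padicNorm p (Bm 3 (a.1.1 + (b.1.1 - 48))) ≤ 1 :=
              hp3 _ (Finset.mem_range.2 (by omega)) p (by omega) hpp
            rw [padicNorm.mul, padicNorm.mul, hw1, one_mul, H6_norm_pow p _ (hunit a.2), one_mul,
              padicNorm.mul]
            exact mul_le_one₀ (hβp 3) (padicNorm.nonneg _) h1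
          · have h1 : padicNorm p (Bm i0 (a.1.1 + (b.1.1 - 96))) ≤ 1 :=
              hp5 _ (Finset.mem_range.2 (by omega)) p (by omega) hpp
            rw [padicNorm.mul, padicNorm.mul, hw1, one_mul, H6_norm_pow p _ (hunit a.2), one_mul,
              padicNorm.mul]
            exact mul_le_one₀ (hγp i0) (padicNorm.nonneg _) h1
        · simp
      · intro a b
        rw [Matrix.blockDiagonal_apply]
        have ha := a.1.2
        have hb := b.1.2
        have ha2 := a.2.2
        have hb2 := b.2.2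
        by_cases hl : b.1.1 < 48
        · have hMab : M a b = (p : ℚ) ^ (-(a.1.1 : ℤ) - (b.1.1 : ℤ)) *
              AL p α (H6_P p (a.2.1 + 1) 144 a.1.1 * H6_P p (b.2.1 + 1) 48 b.1.1) := by
            simp only [hM, hG, Matrix.of_apply, hc, hd, if_pos hl, H6_e_A h b hl, Sum.elim_inl, hQ, hP]
            rw [← zpow_add₀ hp0]
            rfl
          split_ifs with hab
          · rw [hMab, ← hab, H6_P_mul]
            have h1 := (hw2 a.2 (a.1.1 + b.1.1) (by omega)).1
            have h2 : (-((a.1.1 + b.1.1 : ℕ) : ℤ)) = -(a.1.1 : ℤ) - (b.1.1 : ℤ) := by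
              push_cast
              ring
            rw [h2] at h1
            simp only [hBl, Matrix.of_apply, if_pos hl]
            exact h1
          · rw [hMab, sub_zero]
            refine (h4 hp200 (a.2.1 + 1) (b.2.1 + 1) a.1.1 b.1.1 (by omega)
              (by omega) (by omega) (by omega) ?_ ha hl).1 α hαp
            intro h1
            apply hab
            ext
            omega
        · by_cases hl2 : b.1.1 < 96
          · have hMab : M a b = (p : ℚ) ^ (-(a.1.1 : ℤ) - ((b.1.1 - 48 : ℕ) : ℤ) - 3) *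
                BL p β (H6_P p (a.2.1 + 1) 144 a.1.1 * H6_P p (b.2.1 + 1) 48 (b.1.1 - 48)) := by
              simp only [hM, hG, Matrix.of_apply, hc, hd, if_neg hl, if_pos hl2, H6_e_B h b hl hl2,
                Sum.elim_inl, Sum.elim_inr, hQ, hP]
              rw [← zpow_add₀ hp0]
              congr 2
              ring
            split_ifs with hab
            · rw [hMab, ← hab, H6_P_mul]
              have h1 := (hw2 a.2 (a.1.1 + (b.1.1 - 48)) (by omega)).2.1
              have h2 : (-((a.1.1 + (b.1.1 - 48) : ℕ) : ℤ)) - 3 =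
                  -(a.1.1 : ℤ) - ((b.1.1 - 48 : ℕ) : ℤ) - 3 := by
                push_cast
                ring
              rw [h2] at h1
              simp only [hBl, Matrix.of_apply, if_neg hl, if_pos hl2]
              exact h1
            · rw [hMab, sub_zero]
              have h5 := (h4 hp200 (a.2.1 + 1) (b.2.1 + 1) a.1.1 (b.1.1 - 48)
                (by omega) (by omega) (by omega) (by omega) (by
                  intro h1
                  apply hab
                  ext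
                  omega) ha (by omega)).2 β 3 hβp hβ0
              exact_mod_cast h5
          · have hMab : M a b = (p : ℚ) ^ (-(a.1.1 : ℤ) - ((b.1.1 - 96 : ℕ) : ℤ) - i0) *
                BL p γ (H6_P p (a.2.1 + 1) 144 a.1.1 * H6_P p (b.2.1 + 1) 48 (b.1.1 - 96)) := by
              simp only [hM, hG, Matrix.of_apply, hc, hd, if_neg hl, if_neg hl2, H6_e_C h b hl hl2,
                Sum.elim_inr, hQ, hP]
              rw [← zpow_add₀ hp0]
              congr 2
              ring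
            split_ifs with hab
            · rw [hMab, ← hab, H6_P_mul]
              have h1 := (hw2 a.2 (a.1.1 + (b.1.1 - 96)) (by omega)).2.2
              have h2 : (-((a.1.1 + (b.1.1 - 96) : ℕ) : ℤ)) - i0 =
                  -(a.1.1 : ℤ) - ((b.1.1 - 96 : ℕ) : ℤ) - i0 := by
                push_cast
                ring
              rw [h2] at h1
              simp only [hBl, Matrix.of_apply, if_neg hl, if_neg hl2]
              exact h1
            · rw [hMab, sub_zero]
              refine (h4 hp200 (a.2.1 + 1) (b.2.1 + 1) a.1.1 (b.1.1 - 96)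
                (by omega) (by omega) (by omega) (by omega) ?_ ha (by omega)).2 γ i0 hγp hγ0
              intro h1
              apply hab
              ext
              omega
      · rw [Matrix.det_blockDiagonal]
        apply H6_norm_prod p
        intro r
        have h1 : Bl r = Matrix.of fun l l' => (w r) *
            (Matrix.of fun l l' : Fin 144 => ((-2 * ((r.1 + 1 : ℕ) : ℚ)) ^ l.1) *
              (if l'.1 < 48 then (-2 * ((r.1 + 1 : ℕ) : ℚ)) ^ l'.1
                else if l'.1 < 96 then (-2 * ((r.1 + 1 : ℕ) : ℚ)) ^ (l'.1 - 48) * β 3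
                else (-2 * ((r.1 + 1 : ℕ) : ℚ)) ^ (l'.1 - 96) * γ i0) *
              (Matrix.of fun l l' : Fin 144 => if l'.1 < 48 then Fm (l.1 + l'.1)
                else if l'.1 < 96 then Bm 3 (l.1 + (l'.1 - 48))
                else Bm i0 (l.1 + (l'.1 - 96))) l l') l l' := by
          ext l l'
          simp only [hBl, Matrix.of_apply]
          split_ifs <;> ring
        rw [h1, Matrix.det_mul_column (fun _ => w r), H6_det_scale (fun l : Fin 144 =>
          ((-2 * ((r.1 + 1 : ℕ) : ℚ)) ^ l.1)) (fun l' : Fin 144 =>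
          (if l'.1 < 48 then (-2 * ((r.1 + 1 : ℕ) : ℚ)) ^ l'.1
                else if l'.1 < 96 then (-2 * ((r.1 + 1 : ℕ) : ℚ)) ^ (l'.1 - 48) * β 3
                else (-2 * ((r.1 + 1 : ℕ) : ℚ)) ^ (l'.1 - 96) * γ i0))]
        have h5 : ∀ i : Fin 144, padicNorm p ((-2 * ((r.1 + 1 : ℕ) : ℚ)) ^ i.1) = 1 := fun i =>
          H6_norm_pow p _ (hunit r) _
        have h6 : ∀ i : Fin 144, padicNorm p (if i.1 < 48 then (-2 * ((r.1 + 1 : ℕ) : ℚ)) ^ i.1
                else if i.1 < 96 then (-2 * ((r.1 + 1 : ℕ) : ℚ)) ^ (i.1 - 48) * β 3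
                else (-2 * ((r.1 + 1 : ℕ) : ℚ)) ^ (i.1 - 96) * γ i0) = 1 := by
          intro i
          split_ifs
          · exact h5 i
          · rw [padicNorm.mul, H6_norm_pow p _ (hunit r), hp4 p (by omega) hpp, one_mul]
          · rw [padicNorm.mul, H6_norm_pow p _ (hunit r), hp6 p (by omega) hpp, one_mul]
        rw [padicNorm.mul, padicNorm.mul, padicNorm.mul, H6_norm_prod p _ (fun _ => hw1 r),
          H6_norm_prod p _ h5, H6_norm_prod p _ h6, hp1 p (by omega) hpp]
        norm_num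
    intro h0
    apply hM0
    rw [hM, H6_det_scale, h0, mul_zero, mul_zero]
  -- conclusion
  have hm : 24 * p - 24 = 48 * h := by omega
  unfold DD
  rw [hm]
  refine ha2 (AL p α) (BL p β) (BL p γ) (48 * h) (Fin 144 × Fin h) (Fin 48 × Fin h) (H6_e h) ?_ ?_ Q P ?_ ?_ key
  · simp only [Fintype.card_prod, Fintype.card_fin]
    omega
  · simp only [Fintype.card_prod, Fintype.card_fin]
  · intro a
    have ha := a.1.2
    have ha2 := a.2.2
    have := H6_P_natDegree p (a.2.1 + 1) 144 a.1.1 (by omega) (by omega) ha hodd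
    rw [← hh] at this
    rw [hQ]
    refine this.trans_le ?_
    omega
  · intro a
    have ha := a.1.2
    have ha2 := a.2.2
    have := H6_P_natDegree p (a.2.1 + 1) 48 a.1.1 (by omega) (by omega) ha hodd
    rw [← hh] at this
    rw [hP]
    exact this

end

end Pool.Agent.Run7.h697.T
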