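import Pool.Agent.Run7.h24.T.TwoE
import Pool.Agent.Run7.h24.T.TwoP
import Pool.Agent.Run7.h778.T.MixA
import Pool.Agent.Run7.h186.T.MixB
import Pool.Agent.Run7.h950.T.D1
import Pool.Agent.Run7.h915.T.C1

/-!
# T-MIX: the form as a sum of blocks, and the assembly of the p-adic bound for `4n/3 < p < 4n`

Port of `Pool/Agent/Dim7/MixC.lean` and `Mix.lean`: order 64, no zeros, three kinds of columns, `τ = 1`.
-/

open Polynomial Pool.Agent.H337R2 Pool.Agent.Run7.h851.T

namespace Pool.Agent.Run7.h697.T.Mix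

open Pool.Agent.Run7.h24.T.Two Pool.Agent.Run7.h186.T.Mix

noncomputable section

lemma gk_eq (n : ℕ) (u : ℚ) (v : ℕ → ℚ) (E : ℚ[X]) : gk n u v E = fk n u v E := rfl

lemma Alow_mem {n p a : ℕ} (h2 : p < 4 * n) (ha : a ∈ Alow n p) :
    a ∈ sM n ∧ a + p ∈ sM n ∧ a < p ∧ 4 * n < a + 2 * p := by
  unfold Alow at ha
  rw [Finset.mem_filter, Finset.mem_Icc] at ha
  rw [Finset.mem_Icc, Finset.mem_Icc]
  omega

lemma q_AL (n : ℕ) (q : ℚ) (α : ℕ → ℚ) (Q : ℚ[X]) :
    q * AL n α Q = ∑ k ∈ sM n, fk n q (fun i => q * α i) (EM n Q) k := by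
  rw [AL_apply]
  unfold xa fk rho
  rw [Finset.mul_sum, Finset.sum_comm]
  refine Finset.sum_congr rfl fun i _ => ?_
  rw [Finset.sum_mul, ← Finset.sum_sub_distrib, Finset.mul_sum]
  exact Finset.sum_congr rfl fun k _ => by ring

lemma q_BL (n : ℕ) (q : ℚ) (β : ℕ → ℚ) (Q : ℚ[X]) :
    q * BL n β Q = ∑ k ∈ sM n, fk n 0 (fun i => q * β i) (EM n Q) k := by
  rw [BL_apply]
  unfold xb fk rho
  rw [Finset.mul_sum, Finset.sum_comm]
  refine Finset.sum_congr rfl fun i _ => ?_
  rw [Finset.sum_mul, Finset.mul_sum]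
  exact Finset.sum_congr rfl fun k _ => by ring

/-- the exponents of the powers of `x` (with sum `128 + i + j`) -/
lemma EM_mul (n i j : ℕ) : EM n (X ^ (i + j)) = xM n ^ (64 + i) * xM n ^ (64 + j) := by
  unfold EM
  rw [Polynomial.mul_comp, Polynomial.pow_comp, Polynomial.pow_comp, Polynomial.X_comp]
  ring

lemma xM_reflect (n : ℕ) : (xM n).comp (-X - C ((4 * n : ℕ) : ℚ)) = xM n := by
  unfold xM
  simp only [Polynomial.pow_comp, Polynomial.add_comp, Polynomial.X_comp, Polynomial.C_comp]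
  push_cast
  simp only [map_mul, map_ofNat, map_natCast]
  ring

lemma xM_reflect_pow (n N : ℕ) : (xM n ^ N).comp (-X - C ((4 * n : ℕ) : ℚ)) = xM n ^ N := by
  rw [Polynomial.pow_comp, xM_reflect]

/-- scaled determinant -/
lemma det_scale (m : ℕ) (q σ t : ℚ) (A B C' : ℚ[X] →ₗ[ℚ] ℚ) :
    (Matrix.of fun i j : Fin (3 * m) => (if j.1 < m then t else 1) * (σ * (q * (if j.1 < m then A (X ^ (i.1 + j.1)) else
      if j.1 < 2 * m then B (X ^ (i.1 + (j.1 - m))) else C' (X ^ (i.1 + (j.1 - 2 * m))))))).det =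
      t ^ m * (σ ^ (3 * m) * (q ^ (3 * m) * MD A B C' m)) := by
  have h0 : (Matrix.of fun i j : Fin (3 * m) => (if j.1 < m then t else 1) * (σ * (q * (if j.1 < m then
      A (X ^ (i.1 + j.1)) else if j.1 < 2 * m then B (X ^ (i.1 + (j.1 - m))) else
        C' (X ^ (i.1 + (j.1 - 2 * m))))))) =
      Matrix.of fun i j : Fin (3 * m) => (fun j : Fin (3 * m) => if j.1 < m then t else (1 : ℚ)) j *
        (σ • (q • (Matrix.of fun i j : Fin (3 * m) =>
        if j.1 < m then A (X ^ (i.1 + j.1)) else if j.1 < 2 * m then B (X ^ (i.1 + (j.1 - m))) else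
        C' (X ^ (i.1 + (j.1 - 2 * m)))))) i j := by
    ext i j
    simp only [Matrix.of_apply, Matrix.smul_apply, smul_eq_mul]
  rw [h0, Matrix.det_mul_row, Matrix.det_smul, Matrix.det_smul, Fintype.card_fin]
  have h1 : ∏ j : Fin (3 * m), (if j.1 < m then t else (1 : ℚ)) = t ^ m := by
    rw [Fin.prod_univ_eq_prod_range (fun j => if j < m then t else (1 : ℚ)) (3 * m),
      show 3 * m = m + 2 * m by ring,
      Finset.prod_range_add, Finset.prod_congr rfl (fun j hj => if_pos (Finset.mem_range.1 hj)),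
      Finset.prod_const, Finset.card_range, Finset.prod_eq_one, mul_one]
    intro j _
    rw [if_neg (by omega)]
  rw [h1]
  rfl

section

variable {p : ℕ} [hp : Fact p.Prime]

lemma xM_mem (n : ℕ) : xM n ∈ IP p := by
  unfold xM
  exact pow_mem (sit_mem (p := p) (2 * n)) 2

/-- the form is a sum of kernels, of the parts of the three-site classes, and of something small -/
lemma form_main (hC3 : St_C1_pa_int) {n : ℕ} (hn : 1 ≤ n) (h2 : p < 4 * n)
    (hpair : ∀ (u : ℚ) (v : ℕ → ℚ) (E : ℚ[X]), E.comp (-X - C ((4 * n : ℕ) : ℚ)) = E →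
      ∀ k ∈ sM n, fk n u v E k + fk n u v E (4 * n - k) = Ph n k (E * Om n u v k))
    (hsplit : ∀ F : ℕ → ℚ, ∑ k ∈ sM n, F k =
      ∑ a ∈ Alow n p, ((F (a + p) + F (4 * n - (a + p))) + (F a + F (4 * n - a))) +
      ∑ c ∈ Amid n p, tri n p c F +
      ∑ k ∈ Finset.Ioo (4 * n - p) p, F k)
    {u : ℚ} {v : ℕ → ℚ} (hu : padicNorm p u ≤ 1) (hv : ∀ i, padicNorm p (v i) ≤ 1) {E : ℚ[X]} (hE : E ∈ IP p)
    (hE2 : E.comp (-X - C ((4 * n : ℕ) : ℚ)) = E) :
    padicNorm p (∑ k ∈ sM n, fk n u v E k - ∑ a ∈ Alow n p, Nf n p a (a + p) (E * WW p u v a (a + p)) -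
      ∑ c ∈ Amid n p, tri n p c (gk n u v E)) ≤ padicNorm p (cM n) := by
  have hpos := hp.out.pos
  have e1 : ∑ k ∈ sM n, fk n u v E k = ∑ a ∈ Alow n p, (Nf n p a (a + p) (E * WW p u v a (a + p)) +
      (Ph n (a + p) (E * YY p n u v a (a + p)) + Ph n a (E * YY p n u v a (a + p)))) +
      ∑ c ∈ Amid n p, tri n p c (gk n u v E) +
      ∑ k ∈ Finset.Ioo (4 * n - p) p, fk n u v E k := by
    rw [hsplit]
    congr 2
    refine Finset.sum_congr rfl fun a ha => ?_
    obtain ⟨m1, m2, m3, m4⟩ := Alow_mem h2 ha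
    rw [hpair u v E hE2 _ m2, hpair u v E hE2 _ m1, local_form hpos rfl m1 m2]
  rw [e1, Finset.sum_add_distrib]
  have e2 : ∀ x y z w : ℚ, x + y + z + w - x - z = y + w := fun x y z w => by ring
  rw [e2]
  refine (padicNorm.nonarchimedean).trans (max_le ?_ ?_)
  · apply padicNorm.sum_le' _ (padicNorm.nonneg _)
    intro a ha
    obtain ⟨m1, m2, m3, m4⟩ := Alow_mem h2 ha
    exact flat m3 m4 rfl m1 m2 (mul_mem hE (YY_mem m3 m4 rfl m1 m2 hu hv))
  · apply padicNorm.sum_le' _ (padicNorm.nonneg _)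
    intro k hk
    rw [Finset.mem_Ioo] at hk
    refine fk_single hC3 hn hu hv hE ?_ hk.2 ?_
    · rw [Finset.mem_Icc]
      omega
    · intro k' hk' hne
      rw [Finset.mem_Icc] at hk'
      rintro ⟨c, hc⟩
      have c1 : c < 1 := by
        by_contra h
        have : (p : ℤ) * 1 ≤ p * c := by
          apply mul_le_mul_of_nonneg_left (by omega) (by omega)
        omega
      have c2 : -1 < c := by
        by_contra h
        have : (p : ℤ) * c ≤ p * (-1) := by
          apply mul_le_mul_of_nonneg_left (by omega) (by omega)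
        omega
      have c3 : c = 0 := by omega
      subst c3
      apply hne
      omega

/-- two poles in the class of `a` -/
lemma fM_low {n a : ℕ} (h2 : p < 4 * n) (ha : a ∈ Alow n p) : fM n p a = 128 := by
  have hpos := hp.out.pos
  obtain ⟨m1, m2, m3, m4⟩ := Alow_mem h2 ha
  rw [Finset.mem_Icc] at m1 m2
  have e : (Finset.Icc 0 (4 * n)).filter (fun m : ℕ => (p : ℤ) ∣ (m : ℤ) - a) = {a, a + p} := by
    ext x
    simp only [Finset.mem_filter, Finset.mem_Icc, Finset.mem_insert, Finset.mem_singleton]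
    constructor
    · rintro ⟨hx, d, hd⟩
      have d1 : d < 2 := by
        by_contra h
        have : (p : ℤ) * 2 ≤ p * d := mul_le_mul_of_nonneg_left (by omega) (by omega)
        omega
      have d2 : -1 < d := by
        by_contra h
        have : (p : ℤ) * d ≤ p * (-1) := mul_le_mul_of_nonneg_left (by omega) (by omega)
        omega
      have d3 : d = 0 ∨ d = 1 := by omega
      rcases d3 with h | h
      · subst h; left; omega
      · subst h; right; omega
    · rintro (h | h)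
      · subst h
        exact ⟨by omega, 0, by ring⟩
      · subst h
        exact ⟨by omega, 1, by push_cast; ring⟩
  unfold fM Np cnt
  rw [e, Finset.card_pair (by omega)]
  norm_num

/-- three poles in the class of `c` -/
lemma fM_mid {n c : ℕ} (h1 : 4 * n < 3 * p) (hc : c ∈ Amid n p) : fM n p c = 192 := by
  have hpos := hp.out.pos
  unfold Amid at hc
  rw [Finset.mem_filter, Finset.mem_Icc] at hc
  obtain ⟨⟨m1, m2⟩, m3⟩ := hc
  have e : (Finset.Icc 0 (4 * n)).filter (fun m : ℕ => (p : ℤ) ∣ (m : ℤ) - c) = {c - p, c, c + p} := by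
    ext x
    simp only [Finset.mem_filter, Finset.mem_Icc, Finset.mem_insert, Finset.mem_singleton]
    constructor
    · rintro ⟨hx, d, hd⟩
      have d1 : d < 2 := by
        by_contra h
        have : (p : ℤ) * 2 ≤ p * d := mul_le_mul_of_nonneg_left (by omega) (by omega)
        omega
      have d2 : -2 < d := by
        by_contra h
        have : (p : ℤ) * d ≤ p * (-2) := mul_le_mul_of_nonneg_left (by omega) (by omega)
        omega
      have d3 : d = -1 ∨ d = 0 ∨ d = 1 := by omega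
      rcases d3 with h | h | h
      · subst h; left; omega
      · subst h; right; left; omega
      · subst h; right; right; omega
    · rintro (h | h | h)
      · subst h
        exact ⟨by omega, -1, by rw [Nat.cast_sub m1]; ring⟩
      · subst h
        exact ⟨by omega, 0, by ring⟩
      · subst h
        exact ⟨by omega, 1, by push_cast; ring⟩
  unfold fM Np cnt
  rw [e, Finset.card_insert_of_notMem, Finset.card_pair (by omega)]
  · norm_num
  · simp only [Finset.mem_insert, Finset.mem_singleton]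
    omega

theorem D3_mix_of (hC1 : St_C1_norm_cM) (hC2 : St_C1_pa) (hC3 : St_C1_pa_int) (hD2 : St_D2_eM_kap)
    (hpair : ∀ (n : ℕ) (u : ℚ) (v : ℕ → ℚ) (E : ℚ[X]), E.comp (-X - C ((4 * n : ℕ) : ℚ)) = E →
      ∀ k ∈ sM n, fk n u v E k + fk n u v E (4 * n - k) = Ph n k (E * Om n u v k))
    (hsplit : ∀ {n p : ℕ}, Odd p → 4 * n < 3 * p → p < 4 * n → ∀ F : ℕ → ℚ, ∑ k ∈ sM n, F k =
      ∑ a ∈ Alow n p, ((F (a + p) + F (4 * n - (a + p))) + (F a + F (4 * n - a))) +
      ∑ c ∈ Amid n p, tri n p c F +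
      ∑ k ∈ Finset.Ioo (4 * n - p) p, F k) : St_D3_mix := by
  intro n p hp hn hp100 h1 h2 q α β γ hα hβ hγ hβ3 hγ5 m
  have hpp := p_pos' (p := p)
  have hp2 : 4 * n < p ^ 2 := by nlinarith
  have hodd : Odd p := hp.out.odd_of_ne_two (by omega)
  have hcM : padicNorm p (cM n) = (p : ℚ) ^ (-oM n p) := hC1 hp2
  have hq : padicNorm p (q : ℚ) ≤ 1 := by
    have := padicNorm.of_int (p := p) (q : ℤ)
    exact_mod_cast this
  have hA : ∀ i, padicNorm p ((q : ℚ) * α i) ≤ 1 := by
    intro i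
    obtain ⟨z, hz⟩ := hα.2 i
    rw [hz]; exact padicNorm.of_int z
  have hB : ∀ i, padicNorm p ((q : ℚ) * β i) ≤ 1 := by
    intro i
    obtain ⟨z, hz⟩ := hβ.2 i
    rw [hz]; exact padicNorm.of_int z
  have hG : ∀ i, padicNorm p ((q : ℚ) * γ i) ≤ 1 := by
    intro i
    obtain ⟨z, hz⟩ := hγ.2 i
    rw [hz]; exact padicNorm.of_int z
  have hB3 : ∀ i < 3, (q : ℚ) * β i = 0 := by
    intro i hi
    rw [hβ3 i hi, mul_zero]
  have hG5 : ∀ i < 5, (q : ℚ) * γ i = 0 := by
    intro i hi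
    rw [hγ5 i hi, mul_zero]
  have hpz : padicNorm p (p : ℚ) = (p : ℚ)⁻¹ := padicNorm.padicNorm_p_of_prime
  -- column data
  set col : Fin (3 * m) → ℕ := fun j => if j.1 < m then j.1 else if j.1 < 2 * m then j.1 - m else j.1 - 2 * m
    with hcol
  set uu : Fin (3 * m) → ℚ := fun j => if j.1 < m then (q : ℚ) else 0 with huu
  set vv : Fin (3 * m) → ℕ → ℚ := fun j => if j.1 < m then (fun i => (q : ℚ) * α i) else
    if j.1 < 2 * m then (fun i => (q : ℚ) * β i) else (fun i => (q : ℚ) * γ i)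
    with hvv
  have hcollt : ∀ j, col j < m := by
    intro j
    have hj := j.2
    rw [hcol]
    simp only
    split_ifs <;> omega
  have huu1 : ∀ j, padicNorm p (uu j) ≤ 1 := by
    intro j
    rw [huu]
    simp only
    split_ifs
    · exact hq
    · rw [padicNorm.zero]; exact zero_le_one
  have hvv1 : ∀ j i, padicNorm p (vv j i) ≤ 1 := by
    intro j i
    rw [hvv]
    simp only
    split_ifs
    · exact hA i
    · exact hB i
    · exact hG i
  set t : ℚ := (p : ℚ) with ht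
  have htn : padicNorm p t = (p : ℚ) ^ (-(1 : ℤ)) := by rw [hpz, zpow_neg, zpow_one]
  have ht1 : padicNorm p t ≤ 1 := by
    rw [hpz]
    exact inv_le_one_of_one_le₀ p_one'
  set tf : Fin (3 * m) → ℚ := fun j => if j.1 < m then t else 1 with htf
  have htf1 : ∀ j, padicNorm p (tf j) ≤ 1 := by
    intro j
    rw [htf]
    simp only
    split_ifs
    · exact ht1
    · rw [padicNorm.one]
  -- multipliers of the columns
  set F : ℕ → Fin (3 * m) → ℚ[X] := fun a j =>
    if j.1 < m then xM n ^ (64 + col j) * WW p q (fun i => (q : ℚ) * α i) a (a + p)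
    else xM n ^ (64 + col j) *
      (vc (vv j) (sit (a + p)) (sit a) * (sit (a + p) * sit a)) with hF
  have hFt : ∀ a j, C t * F a j = C (tf j) * (xM n ^ (64 + col j) * WW p (uu j) (vv j) a (a + p)) := by
    intro a j
    by_cases hj : j.1 < m
    · simp only [hF, htf, huu, hvv, if_pos hj]
    · have e1 : WW p (uu j) (vv j) a (a + p) = C t * (vc (vv j) (sit (a + p)) (sit a) * (sit (a + p) * sit a)) := by
        rw [huu]
        simp only [if_neg hj]
        rw [WW_zero_left]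
      rw [e1, hF, htf]
      simp only [if_neg hj]
      rw [C_1]
      ring
  have hFm : ∀ a ∈ Alow n p, ∀ j, F a j ∈ IP p := by
    intro a ha j
    obtain ⟨m1, m2, m3, m4⟩ := Alow_mem h2 ha
    rw [hF]
    simp only
    split_ifs
    · exact mul_mem (pow_mem (xM_mem n) _) (WW_mem m3 m4 rfl m1 m2 hq hA)
    · exact mul_mem (pow_mem (xM_mem n) _) (mul_mem (vc_mem (hvv1 j) (sit_mem _) (sit_mem _))
        (mul_mem (sit_mem _) (sit_mem _)))
  -- the matrix
  set M0 : Fin (3 * m) → Fin (3 * m) → ℚ := fun i j => (q : ℚ) *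
    (if j.1 < m then AL n α (X ^ (i.1 + j.1)) else if j.1 < 2 * m then BL n β (X ^ (i.1 + (j.1 - m))) else
      BL n γ (X ^ (i.1 + (j.1 - 2 * m)))) with hM0
  have hM0' : ∀ i j, M0 i j = ∑ k ∈ sM n, fk n (uu j) (vv j) (xM n ^ (64 + i.1) * xM n ^ (64 + col j)) k := by
    intro i j
    rw [hM0, huu, hvv, hcol]
    simp only
    split_ifs with hj hj2
    · rw [q_AL, EM_mul]
    · rw [q_BL, EM_mul]
    · rw [q_BL, EM_mul]
  set δ : Fin (3 * m) → Fin (3 * m) → ℚ := fun i j => M0 i j -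
    ∑ a ∈ Alow n p, Nf n p a (a + p) ((xM n ^ (64 + i.1) * xM n ^ (64 + col j)) * WW p (uu j) (vv j) a (a + p)) -
    ∑ c ∈ Amid n p, tri n p c (gk n (uu j) (vv j) (xM n ^ (64 + i.1) * xM n ^ (64 + col j))) with hδ
  have hδn : ∀ i j, padicNorm p (δ i j) ≤ padicNorm p (cM n) := by
    intro i j
    rw [hδ]
    simp only
    rw [hM0']
    refine form_main hC3 hn h2 (hpair n) (hsplit hodd h1 h2) (huu1 j) (hvv1 j)
      (mul_mem (pow_mem (xM_mem n) _) (pow_mem (xM_mem n) _)) ?_
    rw [Polynomial.mul_comp, xM_reflect_pow, xM_reflect_pow]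
  -- representations
  have hU : ∀ (a : ↥(Alow n p)) (i : Fin (3 * m)), ∃ u : ℕ → ℚ, (∀ l, padicNorm p (u l) ≤ 1) ∧ ∃ H : ℚ[X],
      xM n ^ (64 + i.1) = ∑ l ∈ Finset.range 128, C (u l) * bl a.1 (a.1 + p) l + bl a.1 (a.1 + p) 128 * H := by
    intro a i
    obtain ⟨u, hu, H, _, e⟩ := rep (p := p) a.1 (a.1 + p) (pow_mem (xM_mem (p := p) n) (64 + i.1)) 128
    exact ⟨u, hu, H, e⟩
  have hV : ∀ (a : ↥(Alow n p)) (j : Fin (3 * m)), ∃ u : ℕ → ℚ, (∀ l, padicNorm p (u l) ≤ 1) ∧ ∃ H : ℚ[X],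
      F a.1 j = ∑ l ∈ Finset.range 128, C (u l) * bl a.1 (a.1 + p) l + bl a.1 (a.1 + p) 128 * H := by
    intro a j
    obtain ⟨u, hu, H, _, e⟩ := rep (p := p) a.1 (a.1 + p) (hFm a.1 a.2 j) 128
    exact ⟨u, hu, H, e⟩
  choose U hU1 HU hU2 using hU
  choose V hV1 HV hV2 using hV
  have hoM : 0 ≤ oM n p := by
    unfold oM
    positivity
  obtain ⟨o, ho⟩ : ∃ o : ℕ, oM n p = o := ⟨(oM n p).toNat, by omega⟩
  set σ : ℚ := (p : ℚ)⁻¹ ^ o with hσ
  have hσn : padicNorm p σ = (p : ℚ) ^ (oM n p) := by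
    rw [hσ, padicNorm_pow', norm_pinv, ho, zpow_natCast]
  have hNC : ∀ (a : ℕ) (c : ℚ) (g : ℚ[X]), Nf n p a (a + p) (C c * g) = c * Nf n p a (a + p) g := by
    intro a c g
    rw [← smul_eq_C_mul, map_smul, smul_eq_mul]
  have hcong : ∀ a, eM n p (a + p) = eM n p a := fun a => Pool.Agent.Run7.h950.T.D2.eM_congr (Nat.add_mod_right a p)
  have hfe1 : ∀ a ∈ Alow n p, eM n p a = 128 - oM n p := by
    intro a ha
    unfold eM
    rw [fM_low h2 ha]
  have hfe2 : ∀ c ∈ Amid n p, eM n p c = 192 - oM n p := by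
    intro c hc
    unfold eM
    rw [fM_mid h1 hc]
  -- the determinant
  have hdet := Pool.Agent.Run7.h778.T.mix_det' (p := p) (m := m) (N1 := 128) (N2 := 64 + 3 * m)
    (A1 := ↥(Alow n p)) (A2 := ↥(Amid n p))
    (fun i j => tf j * (σ * M0 i j)) (fun i j => tf j * (σ * δ i j))
    (fun a i l => U a i l) (fun a j l => V a j l)
    (fun a l l' => σ * t * Nf n p a.1 (a.1 + p) (bl a.1 (a.1 + p) l * bl a.1 (a.1 + p) l'))
    (fun c i l => Uc n c.1 (64 + i.1) l) (fun c j l => Uc n c.1 (64 + col j) l)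
    (fun c l l' => t * (σ * tri n p c.1 (gk n q (fun i => (q : ℚ) * α i) (Dc n c.1 ^ (l + l')))))
    (fun c l l' => σ * tri n p c.1 (gk n 0 (fun i => (q : ℚ) * β i) (Dc n c.1 ^ (l + l'))))
    (fun c l l' => σ * tri n p c.1 (gk n 0 (fun i => (q : ℚ) * γ i) (Dc n c.1 ^ (l + l'))))
    (by
      intro i j
      have e1 : ∀ a : ↥(Alow n p), ∑ l ∈ Finset.range 128, ∑ l' ∈ Finset.range 128, U a i l *
          (σ * t * Nf n p a.1 (a.1 + p) (bl a.1 (a.1 + p) l * bl a.1 (a.1 + p) l')) * V a j l' =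
          tf j * (σ * Nf n p a.1 (a.1 + p)
            ((xM n ^ (64 + i.1) * xM n ^ (64 + col j)) * WW p (uu j) (vv j) a.1 (a.1 + p))) := by
        intro a
        have e2 := Nf_prod n p a.1 (a.1 + p) (U a i) (V a j) (HU a i) (HV a j) (hU2 a i) (hV2 a j)
        have e3 : xM n ^ (64 + i.1) * (C t * F a.1 j) = C (tf j) * ((xM n ^ (64 + i.1) * xM n ^ (64 + col j)) *
            WW p (uu j) (vv j) a.1 (a.1 + p)) := by
          rw [hFt]; ring
        have e4 : t * Nf n p a.1 (a.1 + p) (xM n ^ (64 + i.1) * F a.1 j) = tf j * Nf n p a.1 (a.1 + p)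
            ((xM n ^ (64 + i.1) * xM n ^ (64 + col j)) * WW p (uu j) (vv j) a.1 (a.1 + p)) := by
          rw [← hNC, ← hNC, ← e3]
          congr 1
          ring
        have e5 : ∑ l ∈ Finset.range 128, ∑ l' ∈ Finset.range 128, U a i l *
          (σ * t * Nf n p a.1 (a.1 + p) (bl a.1 (a.1 + p) l * bl a.1 (a.1 + p) l')) * V a j l' =
          σ * (t * Nf n p a.1 (a.1 + p) (xM n ^ (64 + i.1) * F a.1 j)) := by
          rw [e2, Finset.mul_sum, Finset.mul_sum]
          refine Finset.sum_congr rfl fun l _ => ?_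
          rw [Finset.mul_sum, Finset.mul_sum]
          exact Finset.sum_congr rfl fun l' _ => by ring
        rw [e5, e4]
        ring
      have e6 : ∀ c : ↥(Amid n p), ∑ l ∈ Finset.range (64 + 3 * m), ∑ l' ∈ Finset.range (64 + 3 * m),
          Uc n c.1 (64 + i.1) l *
          (if j.1 < m then t * (σ * tri n p c.1 (gk n q (fun i => (q : ℚ) * α i) (Dc n c.1 ^ (l + l'))))
            else if j.1 < 2 * m then σ * tri n p c.1 (gk n 0 (fun i => (q : ℚ) * β i) (Dc n c.1 ^ (l + l')))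
            else σ * tri n p c.1 (gk n 0 (fun i => (q : ℚ) * γ i) (Dc n c.1 ^ (l + l')))) *
            Uc n c.1 (64 + col j) l' =
          tf j * (σ * tri n p c.1 (gk n (uu j) (vv j) (xM n ^ (64 + i.1) * xM n ^ (64 + col j)))) := by
        intro c
        have hj := hcollt j
        rw [tri_expand n p c.1 (uu j) (vv j) (N := 64 + 3 * m) (by omega) (by omega),
          Finset.mul_sum, Finset.mul_sum]
        refine Finset.sum_congr rfl fun l _ => ?_
        rw [Finset.mul_sum, Finset.mul_sum]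
        refine Finset.sum_congr rfl fun l' _ => ?_
        rw [huu, hvv, htf]
        simp only
        split_ifs <;> ring
      rw [Finset.sum_congr rfl fun a _ => e1 a, Finset.sum_congr rfl fun c _ => e6 c, ← Finset.mul_sum,
        ← Finset.mul_sum, ← Finset.mul_sum, ← Finset.mul_sum,
        Finset.sum_coe_sort (Alow n p) (fun a => Nf n p a (a + p)
          ((xM n ^ (64 + i.1) * xM n ^ (64 + col j)) * WW p (uu j) (vv j) a (a + p))),
        Finset.sum_coe_sort (Amid n p) (fun c => tri n p c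
          (gk n (uu j) (vv j) (xM n ^ (64 + i.1) * xM n ^ (64 + col j)))), hδ]
      ring)
    (fun a i l => hU1 a i l) (fun a i l => hV1 a i l)
    (fun c i l => Uc_norm _ _ _ _) (fun c i l => Uc_norm _ _ _ _)
    (by
      intro i j
      rw [padicNorm.mul, padicNorm.mul, hσn]
      refine mul_le_one₀ (htf1 j) (mul_nonneg (by positivity) (padicNorm.nonneg _)) ?_
      calc (p : ℚ) ^ (oM n p) * padicNorm p (δ i j) ≤ (p : ℚ) ^ (oM n p) * (p : ℚ) ^ (-oM n p) :=
            mul_le_mul_of_nonneg_left ((hδn i j).trans hcM.le) (by positivity)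
        _ = 1 := by rw [← zpow_add₀ hpp.ne', add_neg_cancel, zpow_zero])
    (by
      intro a l l'
      obtain ⟨m1, m2, m3, m4⟩ := Alow_mem h2 a.2
      have h3 := Nf_level hC2 hn hp2 rfl m1 m2 (hcong a.1) l l'
      rw [padicNorm.mul, padicNorm.mul, hσn, htn]
      calc (p : ℚ) ^ (oM n p) * (p : ℚ) ^ (-(1 : ℤ)) * _ ≤
            (p : ℚ) ^ (oM n p) * (p : ℚ) ^ (-(1 : ℤ)) * (p : ℚ) ^ (eM n p a.1 - l - l' : ℤ) :=
            mul_le_mul_of_nonneg_left h3 (by positivity)
        _ = (p : ℚ) ^ (oM n p + -(1 : ℤ) + (eM n p a.1 - l - l') : ℤ) := by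
            rw [← zpow_add₀ hpp.ne', ← zpow_add₀ hpp.ne']
        _ = _ := by
            congr 1
            rw [hfe1 a.1 a.2]
            ring)
    (by
      intro c l l'
      have h3 := tri_bound_A hC2 hD2 hn hp2 hq hA c.2 (l + l')
      rw [padicNorm.mul, padicNorm.mul, hσn, htn]
      calc (p : ℚ) ^ (-(1 : ℤ)) * ((p : ℚ) ^ (oM n p) * _) ≤
            (p : ℚ) ^ (-(1 : ℤ)) * ((p : ℚ) ^ (oM n p) * (p : ℚ) ^ (eM n p c.1 - (l + l' : ℕ) : ℤ)) :=
            mul_le_mul_of_nonneg_left (mul_le_mul_of_nonneg_left h3 (by positivity)) (by positivity)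
        _ = (p : ℚ) ^ (-(1 : ℤ) + (oM n p + (eM n p c.1 - (l + l' : ℕ))) : ℤ) := by
            rw [← zpow_add₀ hpp.ne', ← zpow_add₀ hpp.ne']
        _ = _ := by
            congr 1
            rw [hfe2 c.1 c.2]
            push_cast
            ring)
    (by
      intro c l l'
      have h3 := tri_bound_B hC2 hD2 hn hp2 (i0 := 3) hB hB3 c.2 (l + l')
      rw [padicNorm.mul, hσn]
      calc (p : ℚ) ^ (oM n p) * _ ≤ (p : ℚ) ^ (oM n p) * (p : ℚ) ^ (eM n p c.1 - (3 : ℕ) - (l + l' : ℕ) : ℤ) :=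
            mul_le_mul_of_nonneg_left h3 (by positivity)
        _ = (p : ℚ) ^ (oM n p + (eM n p c.1 - (3 : ℕ) - (l + l' : ℕ)) : ℤ) := by
            rw [← zpow_add₀ hpp.ne']
        _ = _ := by
            congr 1
            rw [hfe2 c.1 c.2]
            push_cast
            ring)
    (by
      intro c l l'
      have h3 := tri_bound_B hC2 hD2 hn hp2 (i0 := 5) hG hG5 c.2 (l + l')
      rw [padicNorm.mul, hσn]
      calc (p : ℚ) ^ (oM n p) * _ ≤ (p : ℚ) ^ (oM n p) * (p : ℚ) ^ (eM n p c.1 - (5 : ℕ) - (l + l' : ℕ) : ℤ) :=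
            mul_le_mul_of_nonneg_left h3 (by positivity)
        _ = (p : ℚ) ^ (oM n p + (eM n p c.1 - (5 : ℕ) - (l + l' : ℕ)) : ℤ) := by
            rw [← zpow_add₀ hpp.ne']
        _ = _ := by
            congr 1
            rw [hfe2 c.1 c.2]
            push_cast
            ring)
  have hMM : (Matrix.of fun i j => tf j * (σ * M0 i j)) =
      Matrix.of fun i j : Fin (3 * m) => (if j.1 < m then t else 1) * (σ * ((q : ℚ) * (if j.1 < m then
        AL n α (X ^ (i.1 + j.1)) else if j.1 < 2 * m then BL n β (X ^ (i.1 + (j.1 - m))) else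
        BL n γ (X ^ (i.1 + (j.1 - 2 * m)))))) := rfl
  rw [hMM, det_scale, padicNorm.mul, padicNorm.mul, padicNorm_pow' t, padicNorm_pow' σ, hσn, htn,
    Fintype.card_coe, Fintype.card_coe] at hdet
  -- exponents
  have hs : ((p : ℚ) ^ (-(1 : ℤ))) ^ m * (((p : ℚ) ^ (oM n p)) ^ (3 * m) *
      padicNorm p ((q : ℚ) ^ (3 * m) * MD (AL n α) (BL n β) (BL n γ) m)) =
      (p : ℚ) ^ (3 * m * oM n p - m : ℤ) * padicNorm p ((q : ℚ) ^ (3 * m) * MD (AL n α) (BL n β) (BL n γ) m) := by
    rw [← mul_assoc]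
    congr 1
    rw [← zpow_natCast, ← zpow_natCast, ← zpow_mul, ← zpow_mul, ← zpow_add₀ hpp.ne']
    congr 1
    push_cast
    ring
  rw [hs] at hdet
  have hfin : (p : ℚ) ^ (-(3 * m * oM n p : ℤ) + m + 4096 * ((Alow n p).card : ℤ) +
      13541 * ((Amid n p).card : ℤ)) = (p : ℚ) ^ (4096 * ((Alow n p).card : ℤ) +
      13541 * ((Amid n p).card : ℤ)) / (p : ℚ) ^ (3 * m * oM n p - m : ℤ) := by
    rw [← zpow_sub₀ hpp.ne']
    congr 1
    ring
  rw [hfin, le_div_iff₀ (by positivity), mul_comm]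
  exact hdet

end

theorem split_tri {n p : ℕ} (hodd : Odd p) (h1 : 4 * n < 3 * p) (h2 : p < 4 * n) (F : ℕ → ℚ) :
    ∑ k ∈ sM n, F k =
      ∑ a ∈ Alow n p, ((F (a + p) + F (4 * n - (a + p))) + (F a + F (4 * n - a))) +
      ∑ c ∈ Amid n p, tri n p c F +
      ∑ k ∈ Finset.Ioo (4 * n - p) p, F k := by
  rw [split_sum_six hodd h1 h2 F, ← Finset.sum_filter_add_sum_filter_not (Amid n p) (fun c => c < 2 * n)]
  have e1 : ∑ c ∈ (Amid n p).filter (fun c => c < 2 * n), tri n p c F =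
      ∑ c ∈ (Amid n p).filter (fun c => c < 2 * n),
        (F (c - p) + F c + F (c + p) + F (4 * n - c + p) + F (4 * n - c) + F (4 * n - c - p)) := by
    refine Finset.sum_congr rfl fun c hc => ?_
    rw [Finset.mem_filter] at hc
    unfold tri
    rw [if_pos hc.2]
    ring
  have e2 : ∑ c ∈ (Amid n p).filter (fun c => ¬ c < 2 * n), tri n p c F =
      if p ≤ 2 * n then F (2 * n - p) + F (2 * n) + F (2 * n + p) else 0 := by
    split_ifs with h
    · have e3 : (Amid n p).filter (fun c => ¬ c < 2 * n) = {2 * n} := by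
        ext a
        simp only [Amid, Finset.mem_filter, Finset.mem_Icc, Finset.mem_singleton]
        omega
      rw [e3, Finset.sum_singleton]
      unfold tri
      rw [if_neg (lt_irrefl _), add_zero]
    · have e3 : (Amid n p).filter (fun c => ¬ c < 2 * n) = ∅ := by
        ext a
        simp only [Amid, Finset.mem_filter, Finset.mem_Icc, Finset.notMem_empty, iff_false]
        omega
      rw [e3, Finset.sum_empty]
  rw [e1, e2]
  ring

end

end Pool.Agent.Run7.h697.T.Mix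

namespace Pool.Agent.Run7.h697.T

/-- **the p-adic bound for `4n/3 < p < 4n`** (port of `Pool.Agent.Dim7.D3_mix`) -/
theorem t_D3_mix : St_D3_mix :=
  Mix.D3_mix_of Pool.Agent.Run7.h915.T.C1_norm_cM Pool.Agent.Run7.h915.T.C1_pa Pool.Agent.Run7.h915.T.C1_pa_int
    Pool.Agent.Run7.h950.T.t_D2_eM_kap
    (fun n u v E hE _ hk => Pool.Agent.Run7.h24.T.Two.fk_pair n u v E hE hk)
    (fun hodd h1 h2 F => Mix.split_tri hodd h1 h2 F)

end Pool.Agent.Run7.h697.T
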