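import Pool.Agent.Run7.h851.T.Iface

/-!
# Port of V2, V3 (project T of helper851): the lower bound for `FN` on `[2000, 22000]` and the upper bound for `FY` on
`[-2000, 2000]`
-/

set_option autoImplicit false

open Polynomial Pool.Agent.H337R2

namespace Pool.Agent.Run7.h697.T

open Pool.Agent.Run7.h851.T

/-- the potentials of consecutive bricks of equal steps telescope -/
theorem run (a m : ℕ) (s : ℤ) (c : ℕ) (hc : c ≠ 0)
    (h : ∀ j < m, bb (a + j) = s + c * j ∧ cc (a + j) = c) (w : ℝ) :
    ∑ g ∈ Finset.Ico a (a + m), Ub g w =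
      ((Psi (w - s) - Psi (w - (s + c * m))) + (Psi (w + (s + c * m)) - Psi (w + s))) / c -
        2 * m * Real.log 1000 := by
  have hc' : (c : ℝ) ≠ 0 := by exact_mod_cast hc
  induction m with
  | zero => simp
  | succ m ih =>
    obtain ⟨h1, h2⟩ := h m (by omega)
    have hU : Ub (a + m) w = ((Psi (w - (s + c * m)) - Psi (w - (s + c * (m + 1)))) +
        (Psi (w + (s + c * (m + 1))) - Psi (w + (s + c * m)))) / c - 2 * Real.log 1000 := by
      unfold Ub
      rw [h1, h2]
      push_cast
      have e1 : w - ((s : ℝ) + c * m) - c = w - (s + c * (m + 1)) := by ring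
      have e2 : w + ((s : ℝ) + c * m) + c = w + (s + c * (m + 1)) := by ring
      rw [e1, e2]
    rw [← add_assoc, Finset.sum_Ico_succ_top (by omega), ih fun j hj => h j (by omega), hU]
    push_cast
    field_simp
    ring

theorem r0 (w : ℝ) : ∑ g ∈ Finset.Ico 0 20, Ub g w =
    ((Psi (w - 2000) - Psi (w - 22000)) + (Psi (w + 22000) - Psi (w + 2000))) / 1000 - 40 * Real.log 1000 := by
  have h := run 0 20 2000 1000 (by norm_num) (by decide +kernel) w
  norm_num at h ⊢
  rw [h]

theorem r1 (w : ℝ) : ∑ g ∈ Finset.Ico 20 21, Ub g w =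
    ((Psi (w - 22000) - Psi (w - 23010)) + (Psi (w + 23010) - Psi (w + 22000))) / 1010 - 2 * Real.log 1000 := by
  have h := run 20 1 22000 1010 (by norm_num) (by decide +kernel) w
  norm_num at h ⊢
  rw [h]

theorem r2 (w : ℝ) : ∑ g ∈ Finset.Ico 21 22, Ub g w =
    ((Psi (w - 23010) - Psi (w - 24430)) + (Psi (w + 24430) - Psi (w + 23010))) / 1420 - 2 * Real.log 1000 := by
  have h := run 21 1 23010 1420 (by norm_num) (by decide +kernel) w
  norm_num at h ⊢
  rw [h]

theorem r3 (w : ℝ) : ∑ g ∈ Finset.Ico 22 23, Ub g w =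
    ((Psi (w - 24430) - Psi (w - 26980)) + (Psi (w + 26980) - Psi (w + 24430))) / 2550 - 2 * Real.log 1000 := by
  have h := run 22 1 24430 2550 (by norm_num) (by decide +kernel) w
  norm_num at h ⊢
  rw [h]

theorem r4 (w : ℝ) : ∑ g ∈ Finset.Ico 23 24, Ub g w =
    ((Psi (w - 26980) - Psi (w - 33180)) + (Psi (w + 33180) - Psi (w + 26980))) / 6200 - 2 * Real.log 1000 := by
  have h := run 23 1 26980 6200 (by norm_num) (by decide +kernel) w
  norm_num at h ⊢
  rw [h]

theorem r5 (w : ℝ) : ∑ g ∈ Finset.Ico 24 48, Ub g w =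
    ((Psi w - Psi (w - 792)) + (Psi (w + 792) - Psi w)) / 33 - 48 * Real.log 1000 := by
  have h := run 24 24 0 33 (by norm_num) (by decide +kernel) w
  norm_num at h ⊢
  rw [h]

theorem r6 (w : ℝ) : ∑ g ∈ Finset.Ico 48 60, Ub g w =
    ((Psi (w - 792) - Psi (w - 1224)) + (Psi (w + 1224) - Psi (w + 792))) / 36 - 24 * Real.log 1000 := by
  have h := run 48 12 792 36 (by norm_num) (by decide +kernel) w
  norm_num at h ⊢
  rw [h]

theorem r7 (w : ℝ) : ∑ g ∈ Finset.Ico 60 66, Ub g w =
    ((Psi (w - 1224) - Psi (w - 1452)) + (Psi (w + 1452) - Psi (w + 1224))) / 38 - 12 * Real.log 1000 := by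
  have h := run 60 6 1224 38 (by norm_num) (by decide +kernel) w
  norm_num at h ⊢
  rw [h]

theorem r8 (w : ℝ) : ∑ g ∈ Finset.Ico 66 70, Ub g w =
    ((Psi (w - 1452) - Psi (w - 1648)) + (Psi (w + 1648) - Psi (w + 1452))) / 49 - 8 * Real.log 1000 := by
  have h := run 66 4 1452 49 (by norm_num) (by decide +kernel) w
  norm_num at h ⊢
  rw [h]

theorem r9 (w : ℝ) : ∑ g ∈ Finset.Ico 70 72, Ub g w =
    ((Psi (w - 1648) - Psi (w - 1814)) + (Psi (w + 1814) - Psi (w + 1648))) / 83 - 4 * Real.log 1000 := by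
  have h := run 70 2 1648 83 (by norm_num) (by decide +kernel) w
  norm_num at h ⊢
  rw [h]

theorem r10 (w : ℝ) : ∑ g ∈ Finset.Ico 72 84, Ub g w =
    ((Psi w - Psi (w - 792)) + (Psi (w + 792) - Psi w)) / 66 - 24 * Real.log 1000 := by
  have h := run 72 12 0 66 (by norm_num) (by decide +kernel) w
  norm_num at h ⊢
  rw [h]

theorem r11 (w : ℝ) : ∑ g ∈ Finset.Ico 84 90, Ub g w =
    ((Psi (w - 792) - Psi (w - 1224)) + (Psi (w + 1224) - Psi (w + 792))) / 72 - 12 * Real.log 1000 := by
  have h := run 84 6 792 72 (by norm_num) (by decide +kernel) w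
  norm_num at h ⊢
  rw [h]

theorem r12 (w : ℝ) : ∑ g ∈ Finset.Ico 90 93, Ub g w =
    ((Psi (w - 1224) - Psi (w - 1452)) + (Psi (w + 1452) - Psi (w + 1224))) / 76 - 6 * Real.log 1000 := by
  have h := run 90 3 1224 76 (by norm_num) (by decide +kernel) w
  norm_num at h ⊢
  rw [h]

theorem r13 (w : ℝ) : ∑ g ∈ Finset.Ico 93 95, Ub g w =
    ((Psi (w - 1452) - Psi (w - 1648)) + (Psi (w + 1648) - Psi (w + 1452))) / 98 - 4 * Real.log 1000 := by
  have h := run 93 2 1452 98 (by norm_num) (by decide +kernel) w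
  norm_num at h ⊢
  rw [h]

theorem r14 (w : ℝ) : ∑ g ∈ Finset.Ico 95 96, Ub g w =
    ((Psi (w - 1648) - Psi (w - 1814)) + (Psi (w + 1814) - Psi (w + 1648))) / 166 - 2 * Real.log 1000 := by
  have h := run 95 1 1648 166 (by norm_num) (by decide +kernel) w
  norm_num at h ⊢
  rw [h]

theorem s0 (w : ℝ) : ∑ g ∈ Finset.range 24, Ub g w =
    ∑ g ∈ Finset.Ico 0 20, Ub g w + ∑ g ∈ Finset.Ico 20 21, Ub g w + ∑ g ∈ Finset.Ico 21 22, Ub g w + ∑ g ∈ Finset.Ico 22 23, Ub g w + ∑ g ∈ Finset.Ico 23 24, Ub g w := by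
  rw [Finset.range_eq_Ico]
  rw [← Finset.sum_Ico_consecutive _ (show 0 ≤ 23 by norm_num) (show 23 ≤ 24 by norm_num),
    ← Finset.sum_Ico_consecutive _ (show 0 ≤ 22 by norm_num) (show 22 ≤ 23 by norm_num),
    ← Finset.sum_Ico_consecutive _ (show 0 ≤ 21 by norm_num) (show 21 ≤ 22 by norm_num),
    ← Finset.sum_Ico_consecutive _ (show 0 ≤ 20 by norm_num) (show 20 ≤ 21 by norm_num)]

theorem s1 (w : ℝ) : ∑ g ∈ Finset.Ico 24 72, Ub g w =
    ∑ g ∈ Finset.Ico 24 48, Ub g w + ∑ g ∈ Finset.Ico 48 60, Ub g w + ∑ g ∈ Finset.Ico 60 66, Ub g w + ∑ g ∈ Finset.Ico 66 70, Ub g w + ∑ g ∈ Finset.Ico 70 72, Ub g w := by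
  rw [← Finset.sum_Ico_consecutive _ (show 24 ≤ 70 by norm_num) (show 70 ≤ 72 by norm_num),
    ← Finset.sum_Ico_consecutive _ (show 24 ≤ 66 by norm_num) (show 66 ≤ 70 by norm_num),
    ← Finset.sum_Ico_consecutive _ (show 24 ≤ 60 by norm_num) (show 60 ≤ 66 by norm_num),
    ← Finset.sum_Ico_consecutive _ (show 24 ≤ 48 by norm_num) (show 48 ≤ 60 by norm_num)]

theorem s2 (w : ℝ) : ∑ g ∈ Finset.Ico 72 96, Ub g w =
    ∑ g ∈ Finset.Ico 72 84, Ub g w + ∑ g ∈ Finset.Ico 84 90, Ub g w + ∑ g ∈ Finset.Ico 90 93, Ub g w + ∑ g ∈ Finset.Ico 93 95, Ub g w + ∑ g ∈ Finset.Ico 95 96, Ub g w := by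
  rw [← Finset.sum_Ico_consecutive _ (show 72 ≤ 95 by norm_num) (show 95 ≤ 96 by norm_num),
    ← Finset.sum_Ico_consecutive _ (show 72 ≤ 93 by norm_num) (show 93 ≤ 95 by norm_num),
    ← Finset.sum_Ico_consecutive _ (show 72 ≤ 90 by norm_num) (show 90 ≤ 93 by norm_num),
    ← Finset.sum_Ico_consecutive _ (show 72 ≤ 84 by norm_num) (show 84 ≤ 90 by norm_num)]

theorem log1000 : Real.log 1000 = 3 * Real.log 2 + 3 * Real.log 5 := by
  rw [show (1000 : ℝ) = 2 ^ 3 * 5 ^ 3 by norm_num, Real.log_mul (by norm_num) (by norm_num), Real.log_pow, Real.log_pow]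
  push_cast
  ring

/-- the list of `-FN` -/
def vl : List (ℤ × ℤ) := [(-4662959207445, -33180), (-6674431806735, -26980), (-9022008342270, -24430), (-8264706669450, -23010), (-286241060259, -22000), (954041453843247, -2000), (-174158717386500, -1814), (-120844824309000, -1648), (-85395762069750, -1452), (-21133294653625, -1224), (-36502963492625, -792), (36502963492625, 792), (21133294653625, 1224), (85395762069750, 1452), (120844824309000, 1648), (174158717386500, 1814), (-954041453843247, 2000), (286241060259, 22000), (8264706669450, 23010), (9022008342270, 24430), (6674431806735, 26980), (4662959207445, 33180)]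

/-- the integer bound -/
def vA : ℤ := 9827891802270463556250000000000

theorem vl_eq (w : ℝ) : EF 14455173543079500 1 vl w = ((-4662959207445) * Psi (w + 33180) + (-6674431806735) * Psi (w + 26980) + (-9022008342270) * Psi (w + 24430) + (-8264706669450) * Psi (w + 23010) + (-286241060259) * Psi (w + 22000) + (954041453843247) * Psi (w + 2000) + (-174158717386500) * Psi (w + 1814) + (-120844824309000) * Psi (w + 1648) + (-85395762069750) * Psi (w + 1452) + (-21133294653625) * Psi (w + 1224) + (-36502963492625) * Psi (w + 792) + (36502963492625) * Psi (w - 792) + (21133294653625) * Psi (w - 1224) + (85395762069750) * Psi (w - 1452) + (120844824309000) * Psi (w - 1648) + (174158717386500) * Psi (w - 1814) + (-954041453843247) * Psi (w - 2000) + (286241060259) * Psi (w - 22000) + (8264706669450) * Psi (w - 23010) + (9022008342270) * Psi (w - 24430) + (6674431806735) * Psi (w - 26980) + (4662959207445) * Psi (w - 33180)) / 14455173543079500 := by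
  unfold EF vl
  simp only [List.map_cons, List.map_nil, List.sum_cons, List.sum_nil]
  push_cast
  norm_num
  ring

theorem FN_eq (w : ℝ) : FN w = - EF 14455173543079500 1 vl w + (704 * Real.log 2 + 192 * Real.log 5 - 256) := by
  unfold FN phi
  rw [vl_eq, s0, s1, r0, r1, r2, r3, r4, r5, r6, r7, r8, r9, log1000]
  ring

/-- the list of `FY` -/
def yl : List (ℤ × ℤ) := [(1554319735815, -33180), (2224810602245, -26980), (3007336114090, -24430), (2754902223150, -23010), (95413686753, -22000), (-626390853533445, -2000), (174158717386500, -1814), (120844824309000, -1648), (85395762069750, -1452), (21133294653625, -1224), (36502963492625, -792), (-36502963492625, 792), (-21133294653625, 1224), (-85395762069750, 1452), (-120844824309000, 1648), (-174158717386500, 1814), (626390853533445, 2000), (-95413686753, 22000), (-2754902223150, 23010), (-3007336114090, 24430), (-2224810602245, 26980), (-1554319735815, 33180)]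

/-- the integer bound -/
def yA : ℤ := -3069199540925535864000000000000

theorem yl_eq (w : ℝ) : EF 9636782362053000 1 yl w = ((1554319735815) * Psi (w + 33180) + (2224810602245) * Psi (w + 26980) + (3007336114090) * Psi (w + 24430) + (2754902223150) * Psi (w + 23010) + (95413686753) * Psi (w + 22000) + (-626390853533445) * Psi (w + 2000) + (174158717386500) * Psi (w + 1814) + (120844824309000) * Psi (w + 1648) + (85395762069750) * Psi (w + 1452) + (21133294653625) * Psi (w + 1224) + (36502963492625) * Psi (w + 792) + (-36502963492625) * Psi (w - 792) + (-21133294653625) * Psi (w - 1224) + (-85395762069750) * Psi (w - 1452) + (-120844824309000) * Psi (w - 1648) + (-174158717386500) * Psi (w - 1814) + (626390853533445) * Psi (w - 2000) + (-95413686753) * Psi (w - 22000) + (-2754902223150) * Psi (w - 23010) + (-3007336114090) * Psi (w - 24430) + (-2224810602245) * Psi (w - 26980) + (-1554319735815) * Psi (w - 33180)) / 9636782362053000 := by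
  unfold EF yl
  simp only [List.map_cons, List.map_nil, List.sum_cons, List.sum_nil]
  push_cast
  norm_num
  ring

theorem FY_eq (w : ℝ) : FY w = EF 9636782362053000 1 yl w + (704 * Real.log 2 + 192 * Real.log 5 - 256) := by
  unfold FY phi
  rw [yl_eq, s0, s1, s2, r0, r1, r2, r3, r4, r5, r6, r7, r8, r9, r10, r11, r12, r13, r14, log1000]
  ring

/-- check of consecutive cells -/
def chkB (M : ℕ) (l : List (ℤ × ℤ)) (A : ℤ) : ℤ → List ℤ → Bool
  | _, [] => true
  | x0, x1 :: t => cellOK M l A x0 x1 && chkB M l A x1 t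

/-- last point -/
def lastB : ℤ → List ℤ → ℤ
  | x0, [] => x0
  | _, x1 :: t => lastB x1 t

theorem chkB_spec {Dc M : ℕ} (hD : 0 < Dc) (hM : 1 ≤ M) (hM2 : M < 2 ^ 20) {l : List (ℤ × ℤ)} {A : ℤ}
    (a : ℝ) (hA : (A : ℝ) ≤ a * (10 ^ 12 * Dc * M)) :
    ∀ (t : List ℤ) (x0 x1 : ℤ), chkB M l A x0 (x1 :: t) = true → ∀ w : ℝ, (x0 : ℝ) ≤ w →
      w ≤ lastB x1 t → EF Dc M l (w / M) ≤ a := by
  intro t
  induction t with
  | nil =>
    intro x0 x1 h w h0 h1
    simp only [chkB, Bool.and_true] at h
    exact cellOK_spec hD hM hM2 h a hA w h0 h1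
  | cons x2 t ih =>
    intro x0 x1 h w h0 h1
    rw [chkB, Bool.and_eq_true] at h
    rcases le_total w x1 with k | k
    · exact cellOK_spec hD hM hM2 h.1 a hA w h0 k
    · exact ih x1 x2 h.2 w k h1

theorem cV : chkB 1 vl vA 2000 [6667, 10942, 14881, 17927, 19996, 21243, 21891, 22000] = true := by decide +kernel

theorem cY : chkB 1 yl yA (-2000) [-1859, -1814, -1717, -1648, -1545, -1452, -1290, -1224, -1041, -896, -792, -562, -309, -70, 170, 413, 675, 792, 947, 1103, 1224, 1419, 1452, 1564, 1648, 1730, 1814, 1927, 2000] = true := by decide +kernel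

theorem EF_V (w : ℝ) (h0 : 2000 ≤ w) (h1 : w ≤ 22000) : EF 14455173543079500 1 vl w ≤ 6798875 / 10000 := by
  have h := chkB_spec (Dc := 14455173543079500) (M := 1) (l := vl) (A := vA) (by norm_num) (by norm_num) (by norm_num)
    (6798875 / 10000) (by unfold vA; norm_num) [10942, 14881, 17927, 19996, 21243, 21891, 22000] 2000 6667 cV w (by push_cast; linarith)
    (by simp only [lastB]; push_cast; linarith)
  simpa using h

theorem EF_Y (w : ℝ) (h0 : -2000 ≤ w) (h1 : w ≤ 2000) : EF 9636782362053000 1 yl w ≤ -318488 / 1000 := by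
  have h := chkB_spec (Dc := 9636782362053000) (M := 1) (l := yl) (A := yA) (by norm_num) (by norm_num) (by norm_num)
    (-318488 / 1000) (by unfold yA; norm_num) [-1814, -1717, -1648, -1545, -1452, -1290, -1224, -1041, -896, -792, -562, -309, -70, 170, 413, 675, 792, 947, 1103, 1224, 1419, 1452, 1564, 1648, 1730, 1814, 1927, 2000] (-2000) (-1859) cY w (by push_cast; linarith)
    (by simp only [lastB]; push_cast; linarith)
  simpa using h

theorem log_low (j : ℕ) (hj : 1 ≤ j) (hj2 : j < 2 ^ 20) (v : ℤ) (h : lnA j = v) :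
    (v : ℝ) - 20000 ≤ 10 ^ 12 * Real.log j := by
  have := lnA_spec j hj hj2
  rw [abs_le, h] at this
  simp only [lnE] at this
  push_cast at this
  linarith [this.1]

theorem log_up (j : ℕ) (hj : 1 ≤ j) (hj2 : j < 2 ^ 20) (v : ℤ) (h : lnA j = v) :
    10 ^ 12 * Real.log j ≤ (v : ℝ) + 20000 := by
  have := lnA_spec j hj hj2
  rw [abs_le, h] at this
  simp only [lnE] at this
  push_cast at this
  linarith [this.2]

theorem t_V2_lower : St_V2_lower := by
  intro w h0 h1
  have hE := EF_V w h0 h1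
  have l2 := log_low 2 (by norm_num) (by norm_num) 693147180560 (by decide +kernel)
  have l5 := log_low 5 (by norm_num) (by norm_num) 1609437912428 (by decide +kernel)
  push_cast at l2 l5
  rw [FN_eq]
  linarith

theorem t_V3_upperY : St_V3_upperY := by
  intro w h0 h1
  have hE := EF_Y w h0 h1
  have l2 := log_up 2 (by norm_num) (by norm_num) 693147180560 (by decide +kernel)
  have l5 := log_up 5 (by norm_num) (by norm_num) 1609437912428 (by decide +kernel)
  push_cast at l2 l5
  rw [FY_eq]
  linarith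

end Pool.Agent.Run7.h697.T
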